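import Pool.Agent.Helper49.TP.StW

/-!
# Project TP (MP_953b28_co), module SUW: random subsets for weighted sums
-/

set_option autoImplicit false

namespace Pool.Agent.Helper78.TP

open Finset Pool.Agent.Helper49.TP Pool.Agent.Helper93.IA Pool.Agent.Helper17.IA
open Pool.Agent.Helper57.IA (Pr wB pr_exists_le exists_not wB_nonneg wB_sum)

private theorem sum_sub {V : Type} [DecidableEq V] (F : V → ℝ) (hF : ∀ v, 0 ≤ F v ∧ F v ≤ 1)
    (A B : Finset V) (h : A ⊆ B) :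
    ∑ v ∈ A, F v ≤ ∑ v ∈ B, F v ∧ ∑ v ∈ B, F v + A.card ≤ ∑ v ∈ A, F v + B.card := by
  refine ⟨Finset.sum_le_sum_of_subset_of_nonneg h fun v _ _ => (hF v).1, ?_⟩
  have h1 := Finset.sum_sdiff (f := F) h
  have h2 : ∑ v ∈ B \ A, F v ≤ ((B \ A).card : ℝ) := by
    calc ∑ v ∈ B \ A, F v ≤ ∑ _v ∈ B \ A, (1 : ℝ) := Finset.sum_le_sum fun v _ => (hF v).2
      _ = ((B \ A).card : ℝ) := by rw [Finset.sum_const, nsmul_eq_mul, mul_one]
  have h3 : ((B \ A).card : ℝ) + A.card = B.card := by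
    exact_mod_cast Finset.card_sdiff_add_card_eq_card h
  linarith

private theorem pick {V : Type} [Fintype V] [DecidableEq V] (U0 : Finset V) (m : ℕ)
    (hm : m ≤ Fintype.card V) :
    ∃ U : Finset V, U.card = m ∧ ∀ F : V → ℝ, (∀ v, 0 ≤ F v ∧ F v ≤ 1) →
      |∑ v ∈ U, F v - ∑ v ∈ U0, F v| ≤ |(U0.card : ℝ) - m| := by
  rcases le_total m U0.card with h | h
  · obtain ⟨U, hU, hc⟩ := Finset.exists_subset_card_eq h
    refine ⟨U, hc, fun F hF => ?_⟩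
    obtain ⟨h1, h2⟩ := sum_sub F hF U U0 hU
    rw [hc] at h2
    have h3 : (U0.card : ℝ) - m ≤ |(U0.card : ℝ) - m| := le_abs_self _
    rw [abs_le]
    constructor <;> linarith [abs_nonneg ((U0.card : ℝ) - m)]
  · obtain ⟨U, hU, hc⟩ := Finset.exists_superset_card_eq h hm
    refine ⟨U, hc, fun F hF => ?_⟩
    obtain ⟨h1, h2⟩ := sum_sub F hF U0 U hU
    rw [hc] at h2
    have h3 : -((U0.card : ℝ) - m) ≤ |(U0.card : ℝ) - m| := neg_le_abs _
    rw [abs_le]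
    constructor <;> linarith [abs_nonneg ((U0.card : ℝ) - m)]

private theorem sum_filt {V : Type} [Fintype V] [DecidableEq V] (σ : V → Bool) (F : V → ℝ) :
    ∑ v, (if σ v = true then F v else 0) = ∑ v ∈ univ.filter fun v => σ v = true, F v := by
  rw [Finset.sum_filter]

/-- The random choice. -/
private theorem choose_set (hBRN : StBRN) (hCNW : StCNW) {V ι : Type} [Fintype V] [DecidableEq V]
    [Fintype ι] (n : ℕ) (ξ l t : ℝ) (hξ : 0 < ξ) (hξ' : ξ ≤ 1 / 2) (hl : 0 ≤ l) (hl1 : l ≤ 1)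
    (hV : Fintype.card V = n) (hι : Fintype.card ι ≤ 4 * n ^ 2)
    (hlt : (4 * (n : ℝ) ^ 2 + 1) * (2 * Real.exp (-l * t + 2 * l ^ 2 * n)) < 1) (F : ι → V → ℝ)
    (hF : ∀ j v, 0 ≤ F j v ∧ F j v ≤ 1) :
    ∃ U0 : Finset V, |(U0.card : ℝ) - ξ * n| ≤ t ∧
      ∀ j, |∑ v ∈ U0, F j v - ξ * ∑ v, F j v| ≤ t := by
  have hp : ∀ _ : V, 0 ≤ ξ ∧ ξ ≤ 1 := fun _ => ⟨hξ.le, by linarith⟩
  have hE : ∀ f : V → ℝ, (∀ v, 0 ≤ f v ∧ f v ≤ 1) → Pr (wB fun _ : V => ξ)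
      (fun σ => t < |∑ v, (if σ v = true then f v else 0) - ξ * ∑ v, f v|) ≤
      2 * Real.exp (-l * t + 2 * l ^ 2 * n) := by
    intro f hf
    have h1 := hCNW hBRN V ξ f l t hξ.le (by linarith) hf hl hl1
    rw [hV] at h1
    exact h1
  have hG : ∀ (j : Option ι) (v : V), 0 ≤ j.elim (fun _ => (1 : ℝ)) F v ∧
      j.elim (fun _ => (1 : ℝ)) F v ≤ 1 := by
    intro j v
    cases j with
    | none => exact ⟨zero_le_one, le_rfl⟩
    | some j => exact hF j v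
  have h0 : Pr (wB fun _ : V => ξ) (fun σ => ∃ j : Option ι,
      t < |∑ v, (if σ v = true then j.elim (fun _ => (1 : ℝ)) F v else 0) -
        ξ * ∑ v, j.elim (fun _ => (1 : ℝ)) F v|) < 1 := by
    refine lt_of_le_of_lt (pr_exists_le (wB fun _ : V => ξ) (wB_nonneg _ hp)
      (fun j : Option ι => fun σ =>
        t < |∑ v, (if σ v = true then j.elim (fun _ => (1 : ℝ)) F v else 0) -
          ξ * ∑ v, j.elim (fun _ => (1 : ℝ)) F v|)
      (2 * Real.exp (-l * t + 2 * l ^ 2 * n)) fun j => hE _ (hG j)) ?_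
    refine lt_of_le_of_lt (mul_le_mul_of_nonneg_right ?_ (by positivity)) hlt
    rw [Fintype.card_option]
    push_cast
    have h4 : (Fintype.card ι : ℝ) ≤ 4 * (n : ℝ) ^ 2 := by exact_mod_cast hι
    linarith
  obtain ⟨σ, hσ⟩ := exists_not (wB fun _ : V => ξ) (wB_nonneg _ hp) (wB_sum _) _ h0
  push Not at hσ
  refine ⟨univ.filter fun v => σ v = true, ?_, fun j => ?_⟩
  · have h5 := hσ none
    rw [sum_filt] at h5
    simp only [Option.elim, Finset.sum_const, nsmul_eq_mul, mul_one, Finset.card_univ, hV] at h5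
    exact h5
  · have h5 := hσ (some j)
    rw [sum_filt] at h5
    exact h5

private theorem final_bound (a b c u n m ξ t r : ℝ) (hn : 0 < n) (hc0 : 0 ≤ c) (hcn : c ≤ n)
    (h1 : |u - ξ * n| ≤ t) (h2 : |b - ξ * c| ≤ t) (h3 : |a - b| ≤ |u - m|)
    (h4 : m ≤ ξ * n) (h5 : ξ * n < m + 1) (h6 : 2 * t + 2 ≤ r) :
    |a - c * m / n| ≤ r := by
  have h7 : |u - m| ≤ t + 1 := by
    rw [abs_le] at h1 ⊢
    constructor <;> linarith [h1.1, h1.2]
  have h8 : |ξ * c - c * m / n| ≤ 1 := by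
    have h9 : ξ * c - c * m / n = (c / n) * (ξ * n - m) := by
      field_simp
    have h10 : 0 ≤ c / n := div_nonneg hc0 hn.le
    have h11 : c / n ≤ 1 := (div_le_one hn).2 hcn
    rw [h9, abs_of_nonneg (mul_nonneg h10 (by linarith))]
    calc (c / n) * (ξ * n - m) ≤ 1 * (ξ * n - m) :=
          mul_le_mul_of_nonneg_right h11 (by linarith)
      _ ≤ 1 := by linarith
  have h3' := h3.trans h7
  rw [abs_le] at h2 h3' h8 ⊢
  constructor <;> linarith [h2.1, h2.2, h3'.1, h3'.2, h8.1, h8.2]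

theorem hSUW : StSUW := by
  intro hBRN hCNW hNWA ξ hξ hξ'
  obtain ⟨n0, hn0⟩ := hNWA ξ hξ hξ'
  refine ⟨n0, ?_⟩
  intro V ι _ _ _ n hn hV hι F hF
  obtain ⟨l, t, hnpos, hl, hl1, ht, h2t, hlt⟩ := hn0 n hn
  obtain ⟨U0, hU0, hF0⟩ := choose_set hBRN hCNW n ξ l t hξ hξ' hl hl1 hV hι hlt F hF
  have hnR : (0 : ℝ) < n := by exact_mod_cast hnpos
  have hm : ⌊ξ * n⌋₊ ≤ Fintype.card V := by
    rw [hV]
    refine Nat.floor_le_of_le ?_
    nlinarith
  obtain ⟨U, hU, hpick⟩ := pick U0 ⌊ξ * n⌋₊ hm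
  refine ⟨U, hU, fun j => ?_⟩
  rw [hU]
  refine final_bound _ (∑ v ∈ U0, F j v) _ (U0.card : ℝ) _ _ ξ t _ hnR
    (Finset.sum_nonneg fun v _ => (hF j v).1) ?_
    hU0 (hF0 j) (hpick (F j) (hF j)) (Nat.floor_le (by positivity)) (Nat.lt_floor_add_one _) h2t
  calc ∑ v, F j v ≤ ∑ _v : V, (1 : ℝ) := Finset.sum_le_sum fun v _ => (hF j v).2
    _ = n := by rw [Finset.sum_const, nsmul_eq_mul, mul_one, Finset.card_univ, hV]

end Pool.Agent.Helper78.TP
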